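import Pool.Agent.Lib.MP_144d21_co.X2.QDefs
import Pool.Agent.Lib.MP_144d21_co.X2.IfaceS
import Pool.Agent.Lib.MP_144d21_co.X2.H16.Cut3
import Pool.Agent.Lib.MP_144d21_co.XU.H34.Con2

/-!
# MP_144d21_co, X2, row DEG3 of the inequality IQ: a vertex of degree 3 (helper35)
-/

set_option autoImplicit false

namespace Pool.Agent.Xu.X2.H35

open Finset

variable {V : Type} [Fintype V] [DecidableEq V]

omit [Fintype V] in
/-- a clique is chordal -/
theorem chordal_clique {G : SimpleGraph V} {S : Finset V}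
    (h : ∀ x ∈ S, ∀ y ∈ S, x ≠ y → G.Adj x y) : ChordalOn G S := by
  intro n hn f
  by_contra hc
  push Not at hc
  obtain ⟨m, rfl⟩ : ∃ m, n = m + 2 + 2 := ⟨n - 4, by omega⟩
  have v0 : (⟨0, by omega⟩ : Fin (m + 2 + 2)).val = 0 := rfl
  have h2 : (⟨0, by omega⟩ : Fin (m + 2 + 2)) ≠ ⟨2, by omega⟩ := by
    intro h'
    have := congrArg Fin.val h'
    simp at this
  have hadj := h (f ⟨0, by omega⟩) (hc _) (f ⟨2, by omega⟩) (hc _) (fun h' => h2 (f.injective h'))
  rw [SimpleGraph.Embedding.map_adj_iff, SimpleGraph.cycleGraph_adj] at hadj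
  have v1 : (1 : Fin (m + 2 + 2)).val = 1 := Fin.val_one (m + 2)
  rcases hadj with h3 | h3
  · have h4 : (m + 2 + 2 - 2 + 0) % (m + 2 + 2) = 1 := by
      have := congrArg Fin.val h3
      rw [Fin.sub_def, v1] at this
      exact this
    rw [Nat.mod_eq_of_lt (by omega)] at h4
    omega
  · have h4 : (m + 2 + 2 - 0 + 2) % (m + 2 + 2) = 1 := by
      have := congrArg Fin.val h3
      rw [Fin.sub_def, v1] at this
      exact this
    rw [Nat.sub_zero, Nat.add_mod_left, Nat.mod_eq_of_lt (by omega)] at h4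
    omega

/-- a colouring of `G - v` extends if `v` has degree at most 3 -/
theorem cols_extend {G : SimpleGraph V} {S : Finset V} {v : V} (hv : v ∈ S)
    (h : (nb G S v).card ≤ 3) : (cols G (S.erase v) 4).card ≤ (cols G S 4).card := by
  have hex : ∀ c : V → ℕ, ∃ k, k < 4 ∧ ∀ u ∈ nb G S v, c u ≠ k := by
    intro c
    have h1 : ((nb G S v).image c).card < (range 4).card := by
      rw [card_range]
      exact lt_of_le_of_lt card_image_le (by omega)
    obtain ⟨k, hk, hk'⟩ := exists_mem_notMem_of_card_lt_card h1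
    exact ⟨k, mem_range.1 hk, fun u hu hc => hk' (mem_image.2 ⟨u, hu, hc⟩)⟩
  choose g hg1 hg2 using hex
  refine card_le_card_of_injOn (fun c => Function.update c v (g c)) ?_ ?_
  · intro c hc
    rw [mem_coe, mem_cols] at hc ⊢
    obtain ⟨h1, h2, h3⟩ := hc
    refine ⟨fun u hu => ?_, fun u hu => ?_, fun u hu w hw huw => ?_⟩
    · by_cases huv : u = v
      · subst huv
        simp only [Function.update_self]
        exact hg1 c
      · simp only [Function.update_of_ne huv]
        exact h1 u (mem_erase.2 ⟨huv, hu⟩)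
    · have huv : u ≠ v := fun h => hu (h ▸ hv)
      simp only [Function.update_of_ne huv]
      exact h2 u fun h => hu (mem_of_mem_erase h)
    · by_cases huv : u = v
      · subst huv
        have hwu : w ≠ u := huw.ne.symm
        simp only [Function.update_self, Function.update_of_ne hwu]
        exact (hg2 c w (mem_nb.2 ⟨hw, huw⟩)).symm
      · by_cases hwv : w = v
        · subst hwv
          simp only [Function.update_self, Function.update_of_ne huv]
          exact hg2 c u (mem_nb.2 ⟨hu, huw.symm⟩)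
        · simp only [Function.update_of_ne huv, Function.update_of_ne hwv]
          exact h3 u (mem_erase.2 ⟨huv, hu⟩) w (mem_erase.2 ⟨hwv, hw⟩) huw
  · intro c hc c' hc' hcc
    rw [mem_coe, mem_cols] at hc hc'
    funext u
    by_cases huv : u = v
    · rw [huv, hc.2.1 v (notMem_erase v S), hc'.2.1 v (notMem_erase v S)]
    · have := congrFun hcc u
      simpa only [Function.update_of_ne huv] using this

theorem cols_restrict {G : SimpleGraph V} {S : Finset V} {v : V}
    (h : (cols G S 4).Nonempty) : (cols G (S.erase v) 4).Nonempty := by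
  obtain ⟨c, hc⟩ := h
  rw [mem_cols] at hc
  refine ⟨Function.update c v 0, ?_⟩
  rw [mem_cols]
  refine ⟨fun u hu => ?_, fun u hu => ?_, fun u hu w hw huw => ?_⟩
  · rw [Function.update_of_ne (mem_erase.1 hu).1]
    exact hc.1 u (mem_of_mem_erase hu)
  · by_cases huv : u = v
    · rw [huv, Function.update_self]
    · rw [Function.update_of_ne huv]
      exact hc.2.1 u fun h => hu (mem_erase.2 ⟨huv, h⟩)
  · rw [Function.update_of_ne (mem_erase.1 hu).1, Function.update_of_ne (mem_erase.1 hw).1]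
    exact hc.2.2 u (mem_of_mem_erase hu) w (mem_of_mem_erase hw) huw

omit [Fintype V] in
/-- `G - v - x - y` is connected if `x, y, z` are the neighbours of `v` -/
theorem conn_rest {G : SimpleGraph V} {S : Finset V} {v x y z : V} (h3 : ThreeConn G S)
    (hx : x ∈ S) (hy : y ∈ S) (hz : z ∈ S) (hxy : x ≠ y) (hxz : x ≠ z) (hyz : y ≠ z) (hvz : z ≠ v)
    (hn : ∀ u ∈ S, G.Adj v u → u = x ∨ u = y ∨ u = z) :
    Conn G (((S.erase v).erase x).erase y) := by
  have hU : ∀ u, u ∈ ((S.erase v).erase x).erase y ↔ u ≠ y ∧ u ≠ x ∧ u ≠ v ∧ u ∈ S := by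
    intro u
    simp only [mem_erase]
  have hW : ∀ u, u ∈ (S.erase x).erase y ↔ u ≠ y ∧ u ≠ x ∧ u ∈ S := by
    intro u
    simp only [mem_erase]
  have hc := h3.2.2 x hx y hy hxy
  -- sets without `z`
  have key : ∀ A ⊆ ((S.erase v).erase x).erase y, A.Nonempty → z ∉ A →
      ∃ a ∈ A, ∃ b ∈ ((S.erase v).erase x).erase y, b ∉ A ∧ G.Adj a b := by
    intro A hA hne hzA
    obtain ⟨a, ha, b, hb, hbA, hab⟩ := hc.2 A (fun u hu => by
      have := (hU u).1 (hA hu)
      exact (hW u).2 ⟨this.1, this.2.1, this.2.2.2⟩) hne (fun h => hzA (by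
        rw [h, hW]; exact ⟨hyz.symm, hxz.symm, hz⟩))
    have ha' := (hU a).1 (hA ha)
    have hb' := (hW b).1 hb
    refine ⟨a, ha, b, (hU b).2 ⟨hb'.1, hb'.2.1, ?_, hb'.2.2⟩, hbA, hab⟩
    rintro rfl
    rcases hn a ha'.2.2.2 hab.symm with h | h | h
    · exact ha'.2.1 h
    · exact ha'.1 h
    · exact hzA (h ▸ ha)
  have hzU : z ∈ ((S.erase v).erase x).erase y := (hU z).2 ⟨hyz.symm, hxz.symm, hvz, hz⟩
  refine ⟨⟨z, hzU⟩, fun A hA hne hAU => ?_⟩
  by_cases hzA : z ∈ A
  · obtain ⟨a, ha, b, hb, hbA, hab⟩ := key (((S.erase v).erase x).erase y \ A) sdiff_subset (by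
      rw [sdiff_nonempty]
      exact fun h => hAU (subset_antisymm hA h)) (fun h => (mem_sdiff.1 h).2 hzA)
    rw [mem_sdiff] at ha hbA
    push Not at hbA
    exact ⟨b, hbA hb, a, ha.1, ha.2, hab.symm⟩
  · exact key A hA hne hzA

/-- the contraction of a pair of neighbours of `v` in `G - v` is 2-connected -/
theorem con_two {G : SimpleGraph V} {S : Finset V} {v x y z : V} (h3 : ThreeConn G S)
    (hv : v ∈ S) (hx : x ∈ S) (hy : y ∈ S) (hz : z ∈ S) (hxv : x ≠ v) (hyv : y ≠ v)
    (hzv : z ≠ v) (hxy : x ≠ y) (hxz : x ≠ z) (hyz : y ≠ z)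
    (hn : ∀ u ∈ S, G.Adj v u → u = x ∨ u = y ∨ u = z) :
    TwoConn (con G x y) ((S.erase v).erase x) := by
  have hxR : x ∈ S.erase v := mem_erase.2 ⟨hxv, hx⟩
  have hyR : y ∈ S.erase v := mem_erase.2 ⟨hyv, hy⟩
  have h4 := h3.1
  refine ⟨?_, H34.con_conn hxR hyR hxy (h3.2.1.2.2 v hv), fun u hu => ?_⟩
  · rw [card_erase_of_mem hxR, card_erase_of_mem hv]
    omega
  obtain ⟨hux, huR⟩ := mem_erase.1 hu
  by_cases huy : u = y
  · subst huy
    have hc := conn_rest h3 hx hy hz hxy hxz hyz hzv hn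
    exact H34.conn_mono hc fun a b hab => ⟨hab.ne, Or.inl hab⟩
  · have hc := h3.2.2 v hv u (mem_of_mem_erase huR) (mem_erase.1 huR).1.symm
    have := H34.con_conn (v := x) (w := y) (mem_erase.2 ⟨fun h => hux h.symm, hxR⟩)
      (mem_erase.2 ⟨fun h => huy h.symm, hyR⟩) hxy hc
    rwa [erase_right_comm] at this

/-- DEG3 -/
theorem deg3 (hD : Dg3S) (hM : BmonS) (hG : ChgS)
    (hP : ∀ (V : Type) [Fintype V] [DecidableEq V] (G : SimpleGraph V) (S : Finset V),
      TwoConn G S → 0 < bet G S) : Deg3S := by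
  intro V _ _ G S v h3 hv hd hcol hIH
  classical
  have h4 := h3.1
  have hR2 : TwoConn G (S.erase v) := by
    refine ⟨by rw [card_erase_of_mem hv]; omega, h3.2.1.2.2 v hv, fun u hu => ?_⟩
    exact h3.2.2 v hv u (mem_of_mem_erase hu) (mem_erase.1 hu).1.symm
  have hcR := cols_restrict (v := v) hcol
  have hcard : (S.erase v).card + 1 = S.card := by
    rw [card_erase_of_mem hv]; omega
  obtain ⟨i1, i2⟩ := hIH G (S.erase v) (Or.inl (by omega)) hR2 hcR
  have hext := cols_extend hv hd.le
  have hcp : 0 < (cols G (S.erase v) 4).card := card_pos.2 hcR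
  have hbR := hP V G _ hR2
  -- the neighbours
  obtain ⟨x0, x1, x2, h01, h02, h12, hN⟩ := card_eq_three.1 hd
  set t : Fin 3 → V := ![x0, x1, x2] with ht
  have htS : nb G S v = tS t := by
    rw [hN]
    ext a
    unfold tS
    simp only [mem_insert, mem_singleton, mem_image, mem_univ, true_and, ht]
    constructor
    · rintro (rfl | rfl | rfl)
      · exact ⟨0, rfl⟩
      · exact ⟨1, rfl⟩
      · exact ⟨2, rfl⟩
    · rintro ⟨i, rfl⟩
      fin_cases i <;> simp
  have htinj : Function.Injective t := by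
    intro i j hij
    fin_cases i <;> fin_cases j <;> simp [ht] at hij ⊢ <;> first
      | exact absurd hij h01
      | exact absurd hij h02
      | exact absurd hij h12
      | exact absurd hij.symm h01
      | exact absurd hij.symm h02
      | exact absurd hij.symm h12
  have htm : ∀ i, t i ∈ S ∧ G.Adj v (t i) := by
    intro i
    have : t i ∈ nb G S v := by
      rw [htS]; unfold tS; exact mem_image_of_mem t (mem_univ i)
    exact mem_nb.1 this
  have hc2 : 2 ≤ (S.erase v).card := hR2.1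
  have hmon := fun F => hM V G F (S.erase v) hR2.2.1 hc2
  have hdg := hD V G S v t h3 hv htinj htS
  have hge : 2 * bet G (S.erase v) ≤ bet G S := by
    have h1 := hdg 0
    have h2 := hmon (tE t {0 + 1, 0 + 2})
    have h5 := hmon (tE t {0})
    linarith
  have hextZ : ((cols G (S.erase v) 4).card : ℤ) ≤ ((cols G S 4).card : ℤ) := by
    exact_mod_cast hext
  have hcpZ : (0 : ℤ) < ((cols G (S.erase v) 4).card : ℤ) := by exact_mod_cast hcp
  have hpow : (3 : ℤ) * 2 ^ S.card = 2 * (3 * 2 ^ (S.erase v).card) := by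
    rw [← hcard, pow_succ]; ring
  have hmul : 2 * bet G (S.erase v) * ((cols G (S.erase v) 4).card : ℤ) ≤
      bet G S * ((cols G S 4).card : ℤ) :=
    mul_le_mul hge hextZ hcpZ.le (by linarith)
  refine ⟨by rw [hpow]; linarith, fun heq => ?_⟩
  -- the neighbours form a clique
  have hcl : ∀ i : Fin 3, G.Adj (t (i + 1)) (t (i + 2)) := by
    intro i
    by_contra hna
    have d1 : ∀ i : Fin 3, i + 1 ≠ i + 2 := by decide
    have d2 : ∀ i : Fin 3, i + 1 ≠ i := by decide
    have d3 : ∀ i : Fin 3, i + 2 ≠ i := by decide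
    have hne : t (i + 1) ≠ t (i + 2) := fun h => d1 i (htinj h)
    have hxR : t (i + 1) ∈ S.erase v := mem_erase.2 ⟨(htm _).2.ne.symm, (htm _).1⟩
    have hyR : t (i + 2) ∈ S.erase v := mem_erase.2 ⟨(htm _).2.ne.symm, (htm _).1⟩
    have hadd : bet (G ⊔ tE t {i}) (S.erase v) = bet (add G (t (i + 1)) (t (i + 2))) (S.erase v) := by
      apply bet_congr
      intro a _ b _
      rw [SimpleGraph.sup_adj, add_adj]
      refine or_congr_right ?_
      constructor
      · rintro ⟨h1, j, hj, h2⟩
        rw [mem_singleton] at hj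
        subst hj
        exact ⟨h1, h2⟩
      · rintro ⟨h1, h2⟩
        exact ⟨h1, i, mem_singleton_self i, h2⟩
    have hstep := bet_add G (S.erase v) _ _ hxR hyR hne hna
    have htwo : TwoConn (con (add G (t (i + 1)) (t (i + 2))) (t (i + 1)) (t (i + 2)))
        ((S.erase v).erase (t (i + 1))) := by
      have hz : t i ∈ S ∧ G.Adj v (t i) := htm i
      have h1 := con_two h3 hv (htm (i + 1)).1 (htm (i + 2)).1 hz.1 (htm (i + 1)).2.ne.symm
        (htm (i + 2)).2.ne.symm hz.2.ne.symm hne (fun h => d2 i (htinj h)) (fun h => d3 i (htinj h)) (by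
          intro u hu hvu
          have : u ∈ tS t := by rw [← htS]; exact mem_nb.2 ⟨hu, hvu⟩
          unfold tS at this
          obtain ⟨j, -, rfl⟩ := mem_image.1 this
          have hj : ∀ i j : Fin 3, j = i + 1 ∨ j = i + 2 ∨ j = i := by decide
          rcases hj i j with h | h | h <;> rw [h] <;> simp)
      refine ⟨h1.1, ?_, fun u hu => ?_⟩
      · exact H34.conn_mono h1.2.1 fun a b hab => ⟨hab.1, hab.2.imp Or.inl fun h =>
          h.imp (fun h => ⟨h.1, Or.inl h.2⟩) fun h => ⟨h.1, Or.inl h.2⟩⟩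
      · exact H34.conn_mono (h1.2.2 u hu) fun a b hab => ⟨hab.1, hab.2.imp Or.inl fun h =>
          h.imp (fun h => ⟨h.1, Or.inl h.2⟩) fun h => ⟨h.1, Or.inl h.2⟩⟩
    have hpos := hP V _ _ htwo
    have h1 := hdg i
    have h2 := hmon (tE t {i + 1, i + 2})
    have h5 : 2 * bet G (S.erase v) < bet G S := by
      rw [hadd] at h1
      linarith
    have h6 : 2 * bet G (S.erase v) * ((cols G (S.erase v) 4).card : ℤ) <
        bet G S * ((cols G S 4).card : ℤ) :=
      mul_lt_mul h5 hextZ hcpZ (by linarith)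
    linarith
  have hch : ChordalOn G (S.erase v) := by
    apply i2
    have : 2 * (bet G (S.erase v) * ((cols G (S.erase v) 4).card : ℤ)) ≤
        2 * (3 * 2 ^ (S.erase v).card) := by
      rw [← hpow, ← heq]; linarith
    linarith
  -- gluing
  have hcl2 : ∀ a ∈ nb G S v, ∀ b ∈ nb G S v, a ≠ b → G.Adj a b := by
    intro a ha b hb hab
    rw [htS] at ha hb
    unfold tS at ha hb
    obtain ⟨i, -, rfl⟩ := mem_image.1 ha
    obtain ⟨j, -, rfl⟩ := mem_image.1 hb
    have hij : i ≠ j := fun h => hab (by rw [h])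
    have : ∀ i j : Fin 3, i ≠ j → ∃ k : Fin 3, (i = k + 1 ∧ j = k + 2) ∨ (i = k + 2 ∧ j = k + 1) := by
      decide
    obtain ⟨k, ⟨rfl, rfl⟩ | ⟨rfl, rfl⟩⟩ := this i j hij
    · exact hcl k
    · exact (hcl k).symm
  have hun : S.erase v ∪ insert v (nb G S v) = S := by
    ext a
    rw [mem_union, mem_erase, mem_insert, mem_nb]
    constructor
    · rintro (h | rfl | h)
      · exact h.2
      · exact hv
      · exact h.1
    · intro h
      by_cases hav : a = v
      · exact Or.inr (Or.inl hav)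
      · exact Or.inl ⟨hav, h⟩
  have hint : S.erase v ∩ insert v (nb G S v) = nb G S v := by
    ext a
    rw [mem_inter, mem_erase, mem_insert]
    constructor
    · rintro ⟨h1, h2 | h2⟩
      · exact absurd h2 h1.1
      · exact h2
    · intro h
      have := mem_nb.1 h
      exact ⟨⟨this.2.ne.symm, this.1⟩, Or.inr h⟩
  have := hG V G (S.erase v) (insert v (nb G S v)) ?_ ?_ hch ?_
  · rwa [hun] at this
  · intro a ha ha' b hb hb' hab
    rw [mem_insert] at ha' hb
    push Not at ha'
    rcases hb with rfl | hb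
    · exact ha'.2 (mem_nb.2 ⟨mem_of_mem_erase ha, hab.symm⟩)
    · have := mem_nb.1 hb
      exact hb' (mem_erase.2 ⟨this.2.ne.symm, this.1⟩)
  · rw [hint]
    exact hcl2
  · apply chordal_clique
    intro a ha b hb hab
    rw [mem_insert] at ha hb
    rcases ha with rfl | ha <;> rcases hb with rfl | hb
    · exact absurd rfl hab
    · exact (mem_nb.1 hb).2
    · exact (mem_nb.1 ha).2.symm
    · exact hcl2 a ha b hb hab

end Pool.Agent.Xu.X2.H35
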