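import Mathlib

/-!
# MP_144d21_co, IQ, the 3-cut step: the inequality between real numbers (helper35)

Two sides of a 3-cut `T` of a 3-connected graph. Indices `e : Fin 3` are the vertices of `T` and
the pairs opposite to them. For one side `H`: `A = β(H + K_T)`, `B e = β((H + K_T) / e)`
(`0` if `e` is an edge), and, all divided by `3 * 2 ^ |H|`: `p` = number of 4-colourings with `T`
rainbow, `q e` = number of those in which exactly the pair `e` has equal colours.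
`pd g`: the vertex `g` of `T` has exactly one neighbour in `H`.
-/

set_option autoImplicit false

namespace Pool.Agent.Xu.H35

open Finset

/-- what is known for one side -/
structure Sd (A : ℝ) (B : Fin 3 → ℝ) (p : ℝ) (q : Fin 3 → ℝ) (pd : Fin 3 → Prop) : Prop where
  hp : 0 ≤ p
  hq : ∀ e, 0 ≤ q e
  hB : ∀ e, 0 ≤ B e
  hA1 : ∀ e, B e < A
  hA2 : ∀ e f, e ≠ f → B e + B f ≤ A
  hA2' : ∀ e f g, e ≠ f → e ≠ g → f ≠ g → ¬ pd g → B e + B f < A
  c1 : 0 < p → 1 ≤ A * p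
  c2 : ∀ e, 0 < q e → 1 ≤ 2 * B e * q e
  c3 : ∀ e, 0 < p + q e → 1 ≤ (A - B e) * (p + q e)
  c4 : ∀ e f g, e ≠ f → e ≠ g → f ≠ g → ¬ pd g → 0 < p + q e + q f →
    1 ≤ (A - B e - B f) * (p + q e + q f)
  rc : ∀ e f g, e ≠ f → e ≠ g → f ≠ g → pd g → 0 < p → 0 < q e ∨ 0 < q f

theorem sum3 (f : Fin 3 → ℝ) {i j k : Fin 3} (h1 : i ≠ j) (h2 : i ≠ k) (h3 : j ≠ k) :
    ∑ e, f e = f i + f j + f k := by
  rw [Fin.sum_univ_three]
  fin_cases i <;> fin_cases j <;> fin_cases k <;> simp_all <;> ring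

/-- Cauchy-Schwarz for four terms -/
theorem cs4 {w0 w1 w2 w3 x0 x1 x2 x3 y0 y1 y2 y3 : ℝ} (hw0 : 0 ≤ w0) (hw1 : 0 ≤ w1)
    (hw2 : 0 ≤ w2) (hw3 : 0 ≤ w3) (hy0 : 0 < y0) (hy1 : 0 < y1) (hy2 : 0 < y2) (hy3 : 0 < y3)
    (h0 : 1 ≤ x0 * y0) (h1 : 1 ≤ x1 * y1) (h2 : 1 ≤ x2 * y2) (h3 : 1 ≤ x3 * y3) :
    (w0 + w1 + w2 + w3) ^ 2 ≤
      (w0 * x0 + w1 * x1 + w2 * x2 + w3 * x3) * (w0 * y0 + w1 * y1 + w2 * y2 + w3 * y3) := by
  have key : ∀ {x y x' y' : ℝ}, 0 < y → 0 < y' → 1 ≤ x * y → 1 ≤ x' * y' →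
      2 ≤ x * y' + x' * y := by
    intro x y x' y' hy hy' h h'
    have hx : 1 / y ≤ x := by rw [div_le_iff₀ hy]; linarith
    have hx' : 1 / y' ≤ x' := by rw [div_le_iff₀ hy']; linarith
    have e1 : 1 / y * y' ≤ x * y' := mul_le_mul_of_nonneg_right hx hy'.le
    have e2 : 1 / y' * y ≤ x' * y := mul_le_mul_of_nonneg_right hx' hy.le
    have e3 : 2 ≤ 1 / y * y' + 1 / y' * y := by
      have : 1 / y * y' + 1 / y' * y - 2 = (y' - y) ^ 2 / (y * y') := by
        field_simp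
        ring
      have h5 : 0 ≤ (y' - y) ^ 2 / (y * y') := by positivity
      linarith
    linarith
  have k01 := key hy0 hy1 h0 h1
  have k02 := key hy0 hy2 h0 h2
  have k03 := key hy0 hy3 h0 h3
  have k12 := key hy1 hy2 h1 h2
  have k13 := key hy1 hy3 h1 h3
  have k23 := key hy2 hy3 h2 h3
  nlinarith [mul_nonneg (mul_nonneg hw0 hw0) (sub_nonneg.2 h0),
    mul_nonneg (mul_nonneg hw1 hw1) (sub_nonneg.2 h1),
    mul_nonneg (mul_nonneg hw2 hw2) (sub_nonneg.2 h2),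
    mul_nonneg (mul_nonneg hw3 hw3) (sub_nonneg.2 h3),
    mul_nonneg (mul_nonneg hw0 hw1) (sub_nonneg.2 k01),
    mul_nonneg (mul_nonneg hw0 hw2) (sub_nonneg.2 k02),
    mul_nonneg (mul_nonneg hw0 hw3) (sub_nonneg.2 k03),
    mul_nonneg (mul_nonneg hw1 hw2) (sub_nonneg.2 k12),
    mul_nonneg (mul_nonneg hw1 hw3) (sub_nonneg.2 k13),
    mul_nonneg (mul_nonneg hw2 hw3) (sub_nonneg.2 k23)]


theorem Sd.hq' {A p : ℝ} {B q : Fin 3 → ℝ} {pd : Fin 3 → Prop} (h : Sd A B p q pd) {e : Fin 3}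
    (he : 0 < q e) : 0 < B e := by
  have h1 := h.c2 e he
  have h2 := h.hB e
  rcases h2.lt_or_eq with h3 | h3
  · exact h3
  · rw [← h3] at h1
    norm_num at h1

theorem Sd.hA {A p : ℝ} {B q : Fin 3 → ℝ} {pd : Fin 3 → Prop} (h : Sd A B p q pd) : 0 < A :=
  (h.hB 0).trans_lt (h.hA1 0)

section
variable {A A' p p' : ℝ} {B B' q q' : Fin 3 → ℝ} {pd pd' : Fin 3 → Prop}

theorem mem3 : ∀ e i j k : Fin 3, i ≠ j → i ≠ k → j ≠ k → e = i ∨ e = j ∨ e = k := by
  decide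

theorem third : ∀ e f : Fin 3, e ≠ f → ∃ t : Fin 3, e ≠ t ∧ f ≠ t := by
  decide

theorem others (i : Fin 3) : ∃ j k : Fin 3, i ≠ j ∧ i ≠ k ∧ j ≠ k := by
  revert i
  decide

/-- no pair can be equal on side 1 -/
theorem caseZ (hs : Sd A B p q pd) (hs' : Sd A' B' p' q' pd') (hE : ∀ e, 0 < B e ↔ 0 < B' e)
    (hD : ∃ e, 0 < B e) (hp : 0 < p) (hp' : 0 < p') (h0 : ∀ e, q e = 0) :
    1 < (A * A' - ∑ e, B e * B' e) * (p * p' + 2 * ∑ e, q e * q' e) := by
  have hc : ∀ e f g, e ≠ f → e ≠ g → f ≠ g → 1 ≤ (A - B e - B f) * p := by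
    intro e f g h1 h2 h3
    have hpd : ¬ pd g := by
      intro h4
      rcases hs.rc e f g h1 h2 h3 h4 hp with h5 | h5
      · rw [h0 e] at h5; exact lt_irrefl _ h5
      · rw [h0 f] at h5; exact lt_irrefl _ h5
    have := hs.c4 e f g h1 h2 h3 hpd (by rw [h0 e, h0 f]; linarith)
    rw [h0 e, h0 f, add_zero, add_zero] at this
    exact this
  have hA' := hs'.hA
  obtain ⟨i, hBi⟩ := hD
  obtain ⟨j, k, h1, h2, h3⟩ := others i
  have hBi' := (hE i).1 hBi
  have e1 := hc i j k h1 h2 h3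
  have e2 := hc i k j h2 h1 h3.symm
  have e3 := hc j k i h3 h1.symm h2.symm
  have b1 := hs'.hA2 i j h1
  have b2 := hs'.hA2 i k h2
  have b3 := hs'.hA2 j k h3
  have c1 := hs'.hA1 i
  have nj := hs'.hB j
  have nk := hs'.hB k
  have mj := mul_nonneg (hs.hB j) hp.le
  have mk := mul_nonneg (hs.hB k) hp.le
  have mi := mul_pos hBi hp
  have key : A' < (A * A' - ∑ e, B e * B' e) * p := by
    rw [sum3 _ h1 h2 h3]
    rcases le_or_gt (B' i + B' j + B' k) A' with hl | hl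
    · have g0 := mul_nonneg (sub_nonneg.2 e1) nj
      have g1 := mul_nonneg (sub_nonneg.2 e2) nk
      have g2 := mul_nonneg (sub_nonneg.2 e1) hBi'.le
      have g3 := mul_nonneg (sub_nonneg.2 e1) (sub_nonneg.2 hl)
      have g4 := mul_pos mi (sub_pos.2 c1)
      have g5 := mul_nonneg mj hBi'.le
      have g6 := mul_nonneg mj (sub_nonneg.2 hl)
      nlinarith
    · have hBj' : 0 < B' j := by linarith
      have mj' := mul_pos ((hE j).2 hBj') hp
      have g0 := mul_nonneg (sub_nonneg.2 hl.le) (sub_nonneg.2 e3)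
      have g1 := mul_nonneg (sub_nonneg.2 b2) (sub_nonneg.2 e1)
      have g2 := mul_nonneg (sub_nonneg.2 b1) (sub_nonneg.2 e2)
      have g3 := mul_nonneg hBi'.le (sub_nonneg.2 e1)
      have g4 := mul_pos hBi' mj'
      have g5 := mul_nonneg (sub_nonneg.2 b2) mi.le
      have g6 := mul_nonneg (sub_nonneg.2 b1) mi.le
      nlinarith
  have h5 := hs'.c1 hp'
  have h6 : ∑ e, q e * q' e = 0 := Finset.sum_eq_zero fun e _ => by rw [h0 e, zero_mul]
  rw [h6, mul_zero, add_zero]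
  nlinarith [mul_lt_mul_of_pos_right key hp']

/-- from Cauchy-Schwarz to the result -/
theorem fin1 {β L Y N Q : ℝ} (hL : N ^ 2 ≤ L * Y) (hβ : L ≤ β) (hQ : Y ≤ Q * N ^ 2)
    (hN : 0 < N) (hY : 0 < Y) (hst : L < β ∨ Y < Q * N ^ 2) : 1 < β * Q := by
  have hN2 : 0 < N ^ 2 := by positivity
  have hL0 : 0 < L := by
    by_contra h
    have : L * Y ≤ 0 := mul_nonpos_of_nonpos_of_nonneg (not_lt.1 h) hY.le
    linarith
  have hP0 : 0 < Q := by
    by_contra h
    have : Q * N ^ 2 ≤ 0 := mul_nonpos_of_nonpos_of_nonneg (not_lt.1 h) hN2.le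
    linarith
  have h1 : N ^ 2 < β * Q * N ^ 2 := by
    rcases hst with h | h
    · calc N ^ 2 ≤ L * Y := hL
        _ ≤ L * (Q * N ^ 2) := mul_le_mul_of_nonneg_left hQ hL0.le
        _ < β * (Q * N ^ 2) := mul_lt_mul_of_pos_right h (by positivity)
        _ = β * Q * N ^ 2 := by ring
    · calc N ^ 2 ≤ L * Y := hL
        _ < L * (Q * N ^ 2) := mul_lt_mul_of_pos_left h hL0
        _ ≤ β * (Q * N ^ 2) := mul_le_mul_of_nonneg_right hβ (by positivity)
        _ = β * Q * N ^ 2 := by ring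
  nlinarith

/-- one term: `w` = weight of the missing set `{e}` -/
theorem term1 {w N b' x x' : ℝ} (hw : 0 ≤ w) (hN : 0 < N) (hwb : w ≤ N) (hb : b' ≤ N)
    (hx : 0 ≤ x) (h : 0 < w → 0 < x → 1 ≤ 2 * b' * x') (hx' : 0 ≤ x') :
    w * x ≤ 2 * N ^ 2 * (x * x') := by
  rcases hx.eq_or_lt with h0 | h0
  · rw [← h0]; simp
  rcases hw.eq_or_lt with h1 | h1
  · rw [← h1, zero_mul]; positivity
  have h2 := h h1 h0
  have h3 : 1 ≤ 2 * N * x' := by nlinarith [mul_le_mul_of_nonneg_right hb hx']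
  have h4 : N ≤ 2 * N ^ 2 * x' := by nlinarith
  nlinarith [mul_le_mul_of_nonneg_right (hwb.trans h4) h0.le]

theorem term1' {w N b' x x' : ℝ} (hN : 0 < N) (hwb : w ≤ N) (hb : b' ≤ N)
    (hx : 0 < x) (h : 1 ≤ 2 * b' * x') (hx' : 0 ≤ x') (hst : w < N ∨ b' < N) :
    w * x < 2 * N ^ 2 * (x * x') := by
  have hx2 : 0 < x' := by
    rcases hx'.eq_or_lt with h0 | h0
    · rw [← h0] at h; norm_num at h
    · exact h0
  have h3 : 1 ≤ 2 * N * x' := by nlinarith [mul_le_mul_of_nonneg_right hb hx']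
  have h4 : N ≤ 2 * N ^ 2 * x' := by nlinarith
  rcases hst with h5 | h5
  · nlinarith [mul_lt_mul_of_pos_right (h5.trans_le h4) hx]
  · have h6 : 1 < 2 * N * x' := by nlinarith [mul_lt_mul_of_pos_right h5 hx2]
    have h7 : N < 2 * N ^ 2 * x' := by nlinarith
    nlinarith [mul_lt_mul_of_pos_right (hwb.trans_lt h7) hx]

/-- side 2 has `∑ B' ≤ A'` -/
theorem caseI1 (hs : Sd A B p q pd) (hs' : Sd A' B' p' q' pd') (hE : ∀ e, 0 < B e ↔ 0 < B' e)
    (hp : 0 < p) (hp' : 0 < p') (hl : ∑ e, B' e ≤ A')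
    (h0 : ∃ e, 0 < q e) (h0' : ∃ e, 0 < q' e) :
    1 < (A * A' - ∑ e, B e * B' e) * (p * p' + 2 * ∑ e, q e * q' e) := by
  classical
  obtain ⟨w, hw⟩ : ∃ w : Fin 3 → ℝ, ∀ e, w e = if 0 < q e ∧ q' e = 0 then 0 else B' e :=
    ⟨_, fun e => rfl⟩
  have hw0 : ∀ e, 0 ≤ w e := by
    intro e; rw [hw e]; split_ifs
    · exact le_rfl
    · exact hs'.hB e
  have hwB : ∀ e, w e ≤ B' e := by
    intro e; rw [hw e]; split_ifs
    · exact hs'.hB e
    · exact le_rfl
  obtain ⟨w0, hw0'⟩ : ∃ w0, w0 = A' - ∑ e, B' e := ⟨_, rfl⟩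
  have hw00 : 0 ≤ w0 := by rw [hw0']; linarith
  obtain ⟨N, hNdef⟩ : ∃ N, N = w0 + w 0 + w 1 + w 2 := ⟨_, rfl⟩
  -- N p' ≥ 1
  have hNp : 1 ≤ N * p' := by
    have hsum := Fin.sum_univ_three B'
    have zz : ∀ e, (0 < q e ∧ q' e = 0) → w e = 0 := fun e h => by rw [hw e, if_pos h]
    have zn : ∀ e, ¬ (0 < q e ∧ q' e = 0) → w e = B' e := fun e h => by rw [hw e, if_neg h]
    have c3 : ∀ e, q' e = 0 → 1 ≤ (A' - B' e) * p' := by
      intro e h
      have := hs'.c3 e (by rw [h]; linarith)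
      rwa [h, add_zero] at this
    have c4 : ∀ e f g, e ≠ f → e ≠ g → f ≠ g → q' e = 0 → q' f = 0 →
        1 ≤ (A' - B' e - B' f) * p' := by
      intro e f g h1 h2 h3 h4 h5
      have hpd : ¬ pd' g := by
        intro h6
        rcases hs'.rc e f g h1 h2 h3 h6 hp' with h7 | h7
        · rw [h4] at h7; exact lt_irrefl _ h7
        · rw [h5] at h7; exact lt_irrefl _ h7
      have := hs'.c4 e f g h1 h2 h3 hpd (by rw [h4, h5]; linarith)
      rwa [h4, h5, add_zero, add_zero] at this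
    by_cases a0 : 0 < q 0 ∧ q' 0 = 0 <;> by_cases a1 : 0 < q 1 ∧ q' 1 = 0 <;>
      by_cases a2 : 0 < q 2 ∧ q' 2 = 0
    · obtain ⟨e, he⟩ := h0'
      fin_cases e
      · exact absurd a0.2 he.ne'
      · exact absurd a1.2 he.ne'
      · exact absurd a2.2 he.ne'
    · rw [hNdef, zz 0 a0, zz 1 a1, zn 2 a2, hw0', hsum]
      have := c4 0 1 2 (by decide) (by decide) (by decide) a0.2 a1.2
      linarith
    · rw [hNdef, zz 0 a0, zn 1 a1, zz 2 a2, hw0', hsum]
      have := c4 0 2 1 (by decide) (by decide) (by decide) a0.2 a2.2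
      linarith
    · rw [hNdef, zz 0 a0, zn 1 a1, zn 2 a2, hw0', hsum]
      have := c3 0 a0.2
      linarith
    · rw [hNdef, zn 0 a0, zz 1 a1, zz 2 a2, hw0', hsum]
      have := c4 1 2 0 (by decide) (by decide) (by decide) a1.2 a2.2
      linarith
    · rw [hNdef, zn 0 a0, zz 1 a1, zn 2 a2, hw0', hsum]
      have := c3 1 a1.2
      linarith
    · rw [hNdef, zn 0 a0, zn 1 a1, zz 2 a2, hw0', hsum]
      have := c3 2 a2.2
      linarith
    · rw [hNdef, zn 0 a0, zn 1 a1, zn 2 a2, hw0', hsum]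
      have := hs'.c1 hp'
      linarith
  have hN : 0 < N := by
    by_contra h
    have := mul_nonpos_of_nonpos_of_nonneg (not_lt.1 h) hp'.le
    linarith
  have hNle : ∀ e, w e ≤ N := by
    intro e
    have i0 := hw0 0
    have i1 := hw0 1
    have i2 := hw0 2
    fin_cases e <;> simp only [Fin.zero_eta, Fin.mk_one, Fin.reduceFinMk] <;> linarith
  have hyp : ∀ e, 0 < p + q e := fun e => by have := hs.hq e; linarith
  -- the lower bound for `β`
  have hid : A * A' - ∑ e, B e * B' e = (w0 * A + w 0 * (A - B 0) + w 1 * (A - B 1) +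
      w 2 * (A - B 2)) + ((B' 0 - w 0) * (A - B 0) + (B' 1 - w 1) * (A - B 1) +
      (B' 2 - w 2) * (A - B 2)) := by
    rw [hw0', Fin.sum_univ_three, Fin.sum_univ_three]
    ring
  have hd : ∀ e, 0 ≤ (B' e - w e) * (A - B e) := fun e =>
    mul_nonneg (sub_nonneg.2 (hwB e)) (sub_pos.2 (hs.hA1 e)).le
  have hcs := cs4 hw00 (hw0 0) (hw0 1) (hw0 2) hp (hyp 0) (hyp 1) (hyp 2) (hs.c1 hp)
    (hs.c3 0 (hyp 0)) (hs.c3 1 (hyp 1)) (hs.c3 2 (hyp 2))
  rw [← hNdef] at hcs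
  have ht : ∀ e, w e * q e ≤ 2 * N ^ 2 * (q e * q' e) := by
    intro e
    by_cases he : 0 < q e ∧ q' e = 0
    · have : w e = 0 := by rw [hw e, if_pos he]
      rw [this, zero_mul, he.2]; simp
    · refine term1 (b' := w e) (hw0 e) hN (hNle e) (hNle e) (hs.hq e) ?_ (hs'.hq e)
      intro _ h2
      have h3 : 0 < q' e := by
        rcases (hs'.hq e).eq_or_lt with h | h
        · exact absurd ⟨h2, h.symm⟩ he
        · exact h
      have h4 : w e = B' e := by rw [hw e, if_neg he]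
      rw [h4]
      exact hs'.c2 e h3
  have hY : 0 < w0 * p + w 0 * (p + q 0) + w 1 * (p + q 1) + w 2 * (p + q 2) := by
    have g0 := mul_nonneg (hw0 0) (hs.hq 0)
    have g1 := mul_nonneg (hw0 1) (hs.hq 1)
    have g2 := mul_nonneg (hw0 2) (hs.hq 2)
    have g3 := mul_pos hN hp
    rw [hNdef] at g3
    linarith
  have hpN : N * p ≤ p * p' * N ^ 2 := by nlinarith [mul_pos hN hp]
  have hYN : w0 * p + w 0 * (p + q 0) + w 1 * (p + q 1) + w 2 * (p + q 2) =
      N * p + (w 0 * q 0 + w 1 * q 1 + w 2 * q 2) := by rw [hNdef]; ring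
  have hexp : (p * p' + 2 * ∑ e, q e * q' e) * N ^ 2 = p * p' * N ^ 2 +
      (2 * N ^ 2 * (q 0 * q' 0) + 2 * N ^ 2 * (q 1 * q' 1) + 2 * N ^ 2 * (q 2 * q' 2)) := by
    rw [Fin.sum_univ_three]; ring
  refine fin1 hcs ?_ ?_ hN hY ?_
  · rw [hid]; linarith [hd 0, hd 1, hd 2]
  · rw [hYN, hexp]; linarith [ht 0, ht 1, ht 2]
  · by_cases haa : ∃ e, 0 < q e ∧ q' e = 0
    · left
      obtain ⟨e, he⟩ := haa
      have h1 : w e = 0 := by rw [hw e, if_pos he]
      have h2 : 0 < B' e := (hE e).1 (hs.hq' he.1)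
      have h3 : 0 < (B' e - w e) * (A - B e) := by
        rw [h1, sub_zero]; exact mul_pos h2 (sub_pos.2 (hs.hA1 e))
      rw [hid]
      have d0 := hd 0
      have d1 := hd 1
      have d2 := hd 2
      fin_cases e <;> simp only [Fin.zero_eta, Fin.mk_one, Fin.reduceFinMk] at h3 <;> linarith
    · right
      have hall : ∀ e, w e = B' e := fun e => by rw [hw e, if_neg fun h => haa ⟨e, h⟩]
      have hNA : N = A' := by
        rw [hNdef, hall 0, hall 1, hall 2, hw0', Fin.sum_univ_three]; ring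
      obtain ⟨e, he⟩ := h0
      have h3 : 0 < q' e := by
        rcases (hs'.hq e).eq_or_lt with h | h
        · exact absurd ⟨e, he, h.symm⟩ haa
        · exact h
      have h4 : B' e < N := by rw [hNA]; exact hs'.hA1 e
      have h5 : w e * q e < 2 * N ^ 2 * (q e * q' e) :=
        term1' (b' := B' e) hN (hNle e) h4.le he (hs'.c2 e h3) (hs'.hq e) (Or.inr h4)
      rw [hYN, hexp]
      have d0 := ht 0
      have d1 := ht 1
      have d2 := ht 2
      fin_cases e <;> simp only [Fin.zero_eta, Fin.mk_one, Fin.reduceFinMk] at h5 <;> linarith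

theorem prod3 (hs : Sd A B p q pd) (hs' : Sd A' B' p' q' pd') {i j k : Fin 3} (h1 : i ≠ j)
    (h2 : i ≠ k) (h3 : j ≠ k) : p * p' + 2 * ∑ e, q e * q' e =
      p * p' + 2 * (q i * q' i) + 2 * (q j * q' j) + 2 * (q k * q' k) ∧
      0 ≤ q i * q' i ∧ 0 ≤ q j * q' j ∧ 0 ≤ q k * q' k := by
  refine ⟨?_, mul_nonneg (hs.hq i) (hs'.hq i), mul_nonneg (hs.hq j) (hs'.hq j),
    mul_nonneg (hs.hq k) (hs'.hq k)⟩
  rw [sum3 _ h1 h2 h3]
  ring

/-- two pairs are possible only on side 1 -/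
theorem caseA2 (hs : Sd A B p q pd) (hs' : Sd A' B' p' q' pd') (hp : 0 < p) (hp' : 0 < p')
    {i j k : Fin 3} (h1 : i ≠ j) (h2 : i ≠ k) (h3 : j ≠ k) (hl : A' < ∑ e, B' e)
    (hi : q' i = 0) (hj : q' j = 0) (hk : 0 < q k → 0 < q' k) :
    1 < (A * A' - ∑ e, B e * B' e) * (p * p' + 2 * ∑ e, q e * q' e) := by
  obtain ⟨e0, e1, e2, e3⟩ := prod3 hs hs' h1 h2 h3
  rw [sum3 _ h1 h2 h3] at hl
  have hpd : ¬ pd' k := by
    intro h6
    rcases hs'.rc i j k h1 h2 h3 h6 hp' with h7 | h7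
    · rw [hi] at h7; exact lt_irrefl _ h7
    · rw [hj] at h7; exact lt_irrefl _ h7
  have c4 := hs'.c4 i j k h1 h2 h3 hpd (by rw [hi, hj]; linarith)
  rw [hi, hj, add_zero, add_zero] at c4
  have hBp : 1 < B' k * p' := by
    have : A' - B' i - B' j < B' k := by linarith
    exact c4.trans_lt (mul_lt_mul_of_pos_right this hp')
  have b1 := hs'.hA2 i k h2
  have b2 := hs'.hA2 j k h3
  have g1 := mul_nonneg (sub_nonneg.2 hl.le) (sub_nonneg.2 (hs.hA2 i j h1))
  have g2 := mul_nonneg (sub_nonneg.2 b2) (sub_pos.2 (hs.hA1 i)).le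
  have g3 := mul_nonneg (sub_nonneg.2 b1) (sub_pos.2 (hs.hA1 j)).le
  have hβ : B' k * (A - B k) ≤ A * A' - ∑ e, B e * B' e := by
    rw [sum3 _ h1 h2 h3]
    nlinarith
  have hx := hs.hA1 k
  have hc3 := hs.c3 k (by have := hs.hq k; linarith)
  have hq2 : q k ≤ B' k * (2 * (q k * q' k)) := by
    rcases (hs.hq k).eq_or_lt with h | h
    · rw [← h]; simp
    · have := hs'.c2 k (hk h)
      nlinarith [mul_le_mul_of_nonneg_right this h.le]
  have hBk : 0 < B' k := by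
    by_contra h
    have := mul_nonpos_of_nonpos_of_nonneg (not_lt.1 h) hp'.le
    linarith
  have hQ : p * p' + 2 * (q k * q' k) ≤ p * p' + 2 * ∑ e, q e * q' e := by rw [e0]; linarith
  have hQ0 : 0 < p * p' + 2 * (q k * q' k) := by
    have := mul_pos hp hp'
    linarith
  calc (1 : ℝ) ≤ (A - B k) * (p + q k) := hc3
    _ < (A - B k) * (B' k * (p * p' + 2 * (q k * q' k))) := by
        refine mul_lt_mul_of_pos_left ?_ (sub_pos.2 hx)
        nlinarith [mul_lt_mul_of_pos_left hBp hp]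
    _ = (B' k * (A - B k)) * (p * p' + 2 * (q k * q' k)) := by ring
    _ ≤ (A * A' - ∑ e, B e * B' e) * (p * p' + 2 * (q k * q' k)) :=
        mul_le_mul_of_nonneg_right hβ hQ0.le
    _ ≤ _ := mul_le_mul_of_nonneg_left hQ ((mul_pos hBk (sub_pos.2 hx)).le.trans hβ)

/-- one pair is possible only on side 1, a second pair is possible on both sides -/
theorem caseA1 (hs : Sd A B p q pd) (hs' : Sd A' B' p' q' pd') (hp : 0 < p) (hp' : 0 < p')
    {i j k : Fin 3} (h1 : i ≠ j) (h2 : i ≠ k) (h3 : j ≠ k) (hl : A' < ∑ e, B' e)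
    (hi : q' i = 0) (hj0 : 0 < q j) (hj : 0 < q' j) (hk : 0 < q k → 0 < q' k) :
    1 < (A * A' - ∑ e, B e * B' e) * (p * p' + 2 * ∑ e, q e * q' e) := by
  obtain ⟨e0, e1, e2, e3⟩ := prod3 hs hs' h1 h2 h3
  rw [sum3 _ h1 h2 h3] at hl
  have c3 := hs'.c3 i (by rw [hi]; linarith)
  rw [hi, add_zero] at c3
  have b1 := hs'.hA2 i k h2
  have b2 := hs'.hA2 j k h3
  have b3 := hs'.hA2 i j h1
  have hBk : 0 < B' k := by linarith
  have hN : 0 < A' - B' i := sub_pos.2 (hs'.hA1 i)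
  have g1 := mul_nonneg (sub_nonneg.2 hl.le) (sub_nonneg.2 (hs.hA2 i j h1))
  have g2 := mul_nonneg (sub_nonneg.2 b2) (sub_pos.2 (hs.hA1 i)).le
  have yj : 0 < p + q j := by linarith
  have yk : 0 < p + q k := by have := hs.hq k; linarith
  have hcs := cs4 (w0 := 0) (w3 := 0) le_rfl (sub_nonneg.2 b1) hBk.le le_rfl hp yj yk hp
    (hs.c1 hp) (hs.c3 j yj) (hs.c3 k yk) (hs.c1 hp)
  have hsum : 0 + (A' - (B' i + B' k)) + B' k + 0 = A' - B' i := by ring
  rw [hsum] at hcs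
  have t1 : (A' - (B' i + B' k)) * q j < 2 * (A' - B' i) ^ 2 * (q j * q' j) :=
    term1' (b' := B' j) hN (by linarith) (by linarith) hj0 (hs'.c2 j hj) (hs'.hq j)
      (Or.inl (by linarith))
  have t2 : B' k * q k ≤ 2 * (A' - B' i) ^ 2 * (q k * q' k) :=
    term1 (b' := B' k) hBk.le hN (by linarith) (by linarith) (hs.hq k)
      (fun _ h => hs'.c2 k (hk h)) (hs'.hq k)
  have hpN : p * (A' - B' i) ≤ p * p' * (A' - B' i) ^ 2 := by nlinarith [mul_pos hN hp]
  have hst : 0 * p + (A' - (B' i + B' k)) * (p + q j) + B' k * (p + q k) + 0 * p <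
      (p * p' + 2 * ∑ e, q e * q' e) * (A' - B' i) ^ 2 := by
    rw [e0]
    have g5 := mul_nonneg e1 (sq_nonneg (A' - B' i))
    nlinarith
  refine fin1 hcs ?_ hst.le hN ?_ (Or.inr hst)
  · rw [sum3 _ h1 h2 h3]
    nlinarith
  · have g6 := mul_nonneg (sub_nonneg.2 b1) yj.le
    have g7 := mul_pos hBk yk
    linarith

/-- one pair is possible on side 1 only, the others are impossible on side 1 -/
theorem caseA0 (hs : Sd A B p q pd) (hs' : Sd A' B' p' q' pd') (hE : ∀ e, 0 < B e ↔ 0 < B' e)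
    (hp : 0 < p) (hp' : 0 < p')
    {i j k : Fin 3} (h1 : i ≠ j) (h2 : i ≠ k) (h3 : j ≠ k) (hl : A' < ∑ e, B' e)
    (hi : q' i = 0) (hj : q j = 0) (hk : q k = 0) :
    1 < (A * A' - ∑ e, B e * B' e) * (p * p' + 2 * ∑ e, q e * q' e) := by
  obtain ⟨e0, e1, e2, e3⟩ := prod3 hs hs' h1 h2 h3
  rw [sum3 _ h1 h2 h3] at hl
  have c3 := hs'.c3 i (by rw [hi]; linarith)
  rw [hi, add_zero] at c3
  have hpd : ¬ pd i := by
    intro h6
    rcases hs.rc j k i h3 h1.symm h2.symm h6 hp with h7 | h7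
    · rw [hj] at h7; exact lt_irrefl _ h7
    · rw [hk] at h7; exact lt_irrefl _ h7
  have c4 := hs.c4 j k i h3 h1.symm h2.symm hpd (by rw [hj, hk]; linarith)
  rw [hj, hk, add_zero, add_zero] at c4
  have b1 := hs'.hA2 i k h2
  have b2 := hs'.hA2 j k h3
  have b3 := hs'.hA2 i j h1
  have hBk : 0 < B' k := by linarith
  have hBj : 0 < B j := (hE j).2 (by linarith)
  have g1 := mul_nonneg (sub_nonneg.2 hl.le) (sub_nonneg.2 (hs.hA2 i j h1))
  have g2 := mul_nonneg (sub_nonneg.2 b2) (sub_pos.2 (hs.hA1 i)).le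
  have hβ : (A' - (B' i + B' k)) * (A - B j) + B' k * (A - B k) ≤
      A * A' - ∑ e, B e * B' e := by
    rw [sum3 _ h1 h2 h3]
    nlinarith
  have x1 : 1 ≤ (A - B j) * p := by
    have := mul_nonneg (hs.hB k) hp.le
    nlinarith
  have x2 : 1 < (A - B k) * p := by
    have := mul_pos hBj hp
    nlinarith
  have h5 : A' - B' i < ((A' - (B' i + B' k)) * (A - B j) + B' k * (A - B k)) * p := by
    have y1 := mul_nonneg (sub_nonneg.2 b1) (sub_nonneg.2 x1)
    have y2 := mul_pos hBk (sub_pos.2 x2)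
    nlinarith
  have h6 : A' - B' i < (A * A' - ∑ e, B e * B' e) * p :=
    h5.trans_le (mul_le_mul_of_nonneg_right hβ hp.le)
  have hβ0 : 0 ≤ A * A' - ∑ e, B e * B' e := by
    refine le_trans ?_ hβ
    have y1 := mul_nonneg (sub_nonneg.2 b1) (sub_pos.2 (hs.hA1 j)).le
    have y2 := mul_nonneg hBk.le (sub_pos.2 (hs.hA1 k)).le
    linarith
  have hQ : p * p' ≤ p * p' + 2 * ∑ e, q e * q' e := by rw [e0]; linarith
  calc (1 : ℝ) ≤ (A' - B' i) * p' := c3
    _ < (A * A' - ∑ e, B e * B' e) * p * p' := mul_lt_mul_of_pos_right h6 hp'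
    _ = (A * A' - ∑ e, B e * B' e) * (p * p') := by ring
    _ ≤ _ := mul_le_mul_of_nonneg_left hQ hβ0

/-- every pair possible on side 1 is possible on side 2 -/
theorem caseN (hs : Sd A B p q pd) (hs' : Sd A' B' p' q' pd') (hp : 0 < p) (hp' : 0 < p')
    {i j k : Fin 3} (h1 : i ≠ j) (h2 : i ≠ k) (h3 : j ≠ k) (hl : A' < ∑ e, B' e)
    (hk : ¬ pd k) (ha : ∀ e, 0 < q e → 0 < q' e) (h0 : ∃ e, 0 < q e) :
    1 < (A * A' - ∑ e, B e * B' e) * (p * p' + 2 * ∑ e, q e * q' e) := by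
  obtain ⟨e0, e1, e2, e3⟩ := prod3 hs hs' h1 h2 h3
  rw [sum3 _ h1 h2 h3] at hl
  have b1 := hs'.hA2 i k h2
  have b2 := hs'.hA2 j k h3
  have hA' := hs'.hA
  have yi : 0 < p + q i := by have := hs.hq i; linarith
  have yj : 0 < p + q j := by have := hs.hq j; linarith
  have yk : 0 < p + q k := by have := hs.hq k; linarith
  have yij : 0 < p + q i + q j := by have := hs.hq j; linarith
  have hcs := cs4 (sub_nonneg.2 hl.le) (sub_nonneg.2 b2) (sub_nonneg.2 b1) (hs'.hB k)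
    yij yi yj yk (hs.c4 i j k h1 h2 h3 hk yij) (hs.c3 i yi) (hs.c3 j yj) (hs.c3 k yk)
  have hsum : B' i + B' j + B' k - A' + (A' - (B' j + B' k)) + (A' - (B' i + B' k)) + B' k =
      A' := by ring
  rw [hsum] at hcs
  have t : ∀ e, B' e * q e ≤ 2 * A' ^ 2 * (q e * q' e) := fun e =>
    term1 (b' := B' e) (hs'.hB e) hA' (hs'.hA1 e).le (hs'.hA1 e).le (hs.hq e)
      (fun _ h => hs'.c2 e (ha e h)) (hs'.hq e)
  have hpN : p * A' ≤ p * p' * A' ^ 2 := by
    have := hs'.c1 hp'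
    nlinarith [mul_pos hA' hp]
  have hst : B' i * q i + B' j * q j + B' k * q k < 2 * A' ^ 2 * (q i * q' i) +
      2 * A' ^ 2 * (q j * q' j) + 2 * A' ^ 2 * (q k * q' k) := by
    obtain ⟨e, he⟩ := h0
    have h5 : B' e * q e < 2 * A' ^ 2 * (q e * q' e) :=
      term1' (b' := B' e) hA' (hs'.hA1 e).le (hs'.hA1 e).le he (hs'.c2 e (ha e he)) (hs'.hq e)
        (Or.inr (hs'.hA1 e))
    have h6 : e = i ∨ e = j ∨ e = k := mem3 e i j k h1 h2 h3
    have ti := t i
    have tj := t j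
    have tk := t k
    rcases h6 with rfl | rfl | rfl <;> linarith
  have hfin : (B' i + B' j + B' k - A') * (p + q i + q j) +
      (A' - (B' j + B' k)) * (p + q i) + (A' - (B' i + B' k)) * (p + q j) +
      B' k * (p + q k) < (p * p' + 2 * ∑ e, q e * q' e) * A' ^ 2 := by
    rw [e0]
    nlinarith
  refine fin1 hcs ?_ hfin.le hA' ?_ (Or.inr hfin)
  · rw [sum3 _ h1 h2 h3]
    nlinarith
  · have g6 := mul_nonneg (hs'.hB i) (hs.hq i)
    have g7 := mul_nonneg (hs'.hB j) (hs.hq j)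
    have g8 := mul_nonneg (hs'.hB k) (hs.hq k)
    have g9 := mul_pos hA' hp
    nlinarith

/-- a pair is possible on both sides, but no rainbow colouring on side 2 -/
theorem caseII (hs : Sd A B p q pd) (hs' : Sd A' B' p' q' pd')
    (hp' : p' = 0) (hno : (∀ g, ¬ pd g) ∨ ∀ g, ¬ pd' g)
    {e : Fin 3} (h : 0 < q e) (h' : 0 < q' e) :
    1 < (A * A' - ∑ e, B e * B' e) * (p * p' + 2 * ∑ e, q e * q' e) := by
  obtain ⟨i, j, h1, h2, h3⟩ := others e
  obtain ⟨e0, e1, e2, e3⟩ := prod3 hs hs' h1 h2 h3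
  have a1 := hs.hA2 e i h1
  have a2 := hs.hA2 e j h2
  have a3 := hs'.hA2 i j h3
  have hx := sub_pos.2 (hs.hA1 e)
  have hx' := sub_pos.2 (hs'.hA1 e)
  have hBe := hs.hq' h
  have c2 := hs.c2 e h
  have c3 := hs'.c3 e (by rw [hp']; linarith)
  rw [hp', zero_add] at c3
  have g1 := mul_nonneg (sub_nonneg.2 a1) (hs'.hB i)
  have g2 := mul_nonneg (sub_nonneg.2 a2) (hs'.hB j)
  have g3 := mul_nonneg (sub_nonneg.2 a3) hx.le
  have hQ : 2 * (q e * q' e) ≤ p * p' + 2 * ∑ e, q e * q' e := by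
    rw [e0, hp', mul_zero]; linarith
  have hQ0 : 0 < 2 * (q e * q' e) := by positivity
  have hβ0 : 0 < B e * (A' - B' e) := mul_pos hBe hx'
  have hid : B e * (A' - B' e) * (2 * (q e * q' e)) = (2 * B e * q e) * ((A' - B' e) * q' e) := by
    ring
  have hβ' : B e * (A' - B' e) < A * A' - ∑ e, B e * B' e := by
    rw [sum3 _ h1 h2 h3]
    rcases hno with hno | hno
    · have k1 := hs.hA2' e i j h1 h2 h3 (hno j)
      have k2 := hs.hA2' e j i h2 h1 h3.symm (hno i)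
      rcases (hs'.hB i).eq_or_lt with k3 | k3
      · rcases (hs'.hB j).eq_or_lt with k4 | k4
        · rw [← k3, ← k4] at g3
          rw [← k3, ← k4]
          have := mul_pos hx hs'.hA
          nlinarith
        · have := mul_pos (sub_pos.2 k2) k4
          nlinarith
      · have := mul_pos (sub_pos.2 k1) k3
        nlinarith
    · have h5 := hs'.hA2' i j e h3 h1.symm h2.symm (hno e)
      have g4 := mul_pos (sub_pos.2 h5) hx
      nlinarith
  calc (1 : ℝ) ≤ (2 * B e * q e) * ((A' - B' e) * q' e) := by nlinarith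
    _ = B e * (A' - B' e) * (2 * (q e * q' e)) := hid.symm
    _ < (A * A' - ∑ e, B e * B' e) * (2 * (q e * q' e)) :=
        mul_lt_mul_of_pos_right hβ' hQ0
    _ ≤ _ := mul_le_mul_of_nonneg_left hQ (hβ0.le.trans hβ'.le)

theorem caseA (hs : Sd A B p q pd) (hs' : Sd A' B' p' q' pd') (hE : ∀ e, 0 < B e ↔ 0 < B' e)
    (hp : 0 < p) (hp' : 0 < p') (hl : A' < ∑ e, B' e) (h0' : ∃ e, 0 < q' e)
    {i : Fin 3} (hi : 0 < q i) (hi' : q' i = 0) :
    1 < (A * A' - ∑ e, B e * B' e) * (p * p' + 2 * ∑ e, q e * q' e) := by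
  obtain ⟨j, k, h1, h2, h3⟩ := others i
  by_cases aj : 0 < q j ∧ q' j = 0
  · refine caseA2 hs hs' hp hp' h1 h2 h3 hl hi' aj.2 fun _ => ?_
    obtain ⟨e, he⟩ := h0'
    rcases mem3 e i j k h1 h2 h3 with rfl | rfl | rfl
    · exact absurd hi' he.ne'
    · exact absurd aj.2 he.ne'
    · exact he
  by_cases ak : 0 < q k ∧ q' k = 0
  · refine caseA2 hs hs' hp hp' h2 h1 h3.symm hl hi' ak.2 fun _ => ?_
    obtain ⟨e, he⟩ := h0'
    rcases mem3 e i j k h1 h2 h3 with rfl | rfl | rfl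
    · exact absurd hi' he.ne'
    · exact he
    · exact absurd ak.2 he.ne'
  have bj : 0 < q j → 0 < q' j := fun h => lt_of_le_of_ne (hs'.hq j) fun h4 => aj ⟨h, h4.symm⟩
  have bk : 0 < q k → 0 < q' k := fun h => lt_of_le_of_ne (hs'.hq k) fun h4 => ak ⟨h, h4.symm⟩
  rcases (hs.hq j).eq_or_lt with h4 | h4
  · rcases (hs.hq k).eq_or_lt with h5 | h5
    · exact caseA0 hs hs' hE hp hp' h1 h2 h3 hl hi' h4.symm h5.symm
    · exact caseA1 hs hs' hp hp' h2 h1 h3.symm hl hi' h5 (bk h5) bj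
  · exact caseA1 hs hs' hp hp' h1 h2 h3 hl hi' h4 (bj h4) bk

theorem swapG (A A' p p' : ℝ) (B B' q q' : Fin 3 → ℝ) :
    (A * A' - ∑ e, B e * B' e) * (p * p' + 2 * ∑ e, q e * q' e) =
      (A' * A - ∑ e, B' e * B e) * (p' * p + 2 * ∑ e, q' e * q e) := by
  simp only [mul_comm]

/-- **the 3-cut step of IQ, numbers**: if `T` is not a clique and some colouring of `T` which is
not constant extends to both sides, then the inequality is strict -/
theorem num3 (hs : Sd A B p q pd) (hs' : Sd A' B' p' q' pd') (hE : ∀ e, 0 < B e ↔ 0 < B' e)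
    (hD : ∃ e, 0 < B e) (hnp : ∀ g, ¬ pd g)
    (hcol : (0 < p ∧ 0 < p') ∨ ∃ e, 0 < q e ∧ 0 < q' e) :
    1 < (A * A' - ∑ e, B e * B' e) * (p * p' + 2 * ∑ e, q e * q' e) := by
  have hD' : ∃ e, 0 < B' e := hD.imp fun e he => (hE e).1 he
  have hE' : ∀ e, 0 < B' e ↔ 0 < B e := fun e => (hE e).symm
  rcases hs.hp.eq_or_lt with hp | hp
  · obtain ⟨e, h1, h2⟩ := hcol.resolve_left fun h => h.1.ne hp
    rw [swapG]
    exact caseII hs' hs hp.symm (Or.inr hnp) h2 h1
  rcases hs'.hp.eq_or_lt with hp' | hp'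
  · obtain ⟨e, h1, h2⟩ := hcol.resolve_left fun h => h.2.ne hp'
    exact caseII hs hs' hp'.symm (Or.inl hnp) h1 h2
  by_cases h0 : ∃ e, 0 < q e
  swap
  · exact caseZ hs hs' hE hD hp hp' fun e => le_antisymm (not_lt.1 fun h => h0 ⟨e, h⟩) (hs.hq e)
  by_cases h0' : ∃ e, 0 < q' e
  swap
  · rw [swapG]
    exact caseZ hs' hs hE' hD' hp' hp fun e =>
      le_antisymm (not_lt.1 fun h => h0' ⟨e, h⟩) (hs'.hq e)
  rcases le_or_gt (∑ e, B' e) A' with hl' | hl'
  · exact caseI1 hs hs' hE hp hp' hl' h0 h0'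
  rcases le_or_gt (∑ e, B e) A with hl | hl
  · rw [swapG]
    exact caseI1 hs' hs hE' hp' hp hl h0' h0
  by_cases ha : ∃ i, 0 < q i ∧ q' i = 0
  · obtain ⟨i, h1, h2⟩ := ha
    exact caseA hs hs' hE hp hp' hl' h0' h1 h2
  by_cases hb : ∃ i, 0 < q' i ∧ q i = 0
  · obtain ⟨i, h1, h2⟩ := hb
    rw [swapG]
    exact caseA hs' hs hE' hp' hp hl h0 h1 h2
  have ha' : ∀ e, 0 < q e → 0 < q' e := fun e h => lt_of_le_of_ne (hs'.hq e) fun h4 =>
    ha ⟨e, h, h4.symm⟩
  have hb' : ∀ e, 0 < q' e → 0 < q e := fun e h => lt_of_le_of_ne (hs.hq e) fun h4 =>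
    hb ⟨e, h, h4.symm⟩
  exact caseN hs hs' hp hp' (i := 1) (j := 2) (k := 0) (by decide) (by decide) (by decide) hl'
    (hnp 0) ha' h0

end

/-- **the 3-cut step of IQ, numbers**, in the form used by the graph side (helper44).
`N = 3 * 2 ^ |int side 1|`, ...; `D e` : the pair `e` of `T` is not an edge; `pen t`: the vertex
`t` of `T` is pendant in side 2 -/
theorem num44 (N N' A A' p p' r r' : ℝ) (B B' q q' : Fin 3 → ℝ) (D pen : Fin 3 → Prop)
    (hN : 0 < N) (hN' : 0 < N') (hp : 0 ≤ p) (hp' : 0 ≤ p') (hr : 0 ≤ r) (hr' : 0 ≤ r')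
    (hq : ∀ e, 0 ≤ q e) (hq' : ∀ e, 0 ≤ q' e) (hA : 0 < A) (hA' : 0 < A')
    (hE : ∀ e, ¬ D e → B e = 0 ∧ B' e = 0 ∧ q e = 0 ∧ q' e = 0)
    (hB : ∀ e, D e → 0 < B e ∧ 0 < B' e)
    (hc1 : 0 < p → N ≤ A * p) (hc1' : 0 < p' → N' ≤ A' * p')
    (hc2 : ∀ e, 0 < q e → N ≤ 2 * B e * q e) (hc2' : ∀ e, 0 < q' e → N' ≤ 2 * B' e * q' e)
    (hc3 : ∀ e, D e → 0 < p + q e → N ≤ (A - B e) * (p + q e))
    (hc3' : ∀ e, D e → 0 < p' + q' e → N' ≤ (A' - B' e) * (p' + q' e))
    (hAB : ∀ e, 0 < A - B e) (hAB' : ∀ e, 0 < A' - B' e)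
    (hc4 : ∀ e f, e ≠ f → D e → D f → 0 < A - B e - B f ∧
      (0 < p + q e + q f → N ≤ (A - B e - B f) * (p + q e + q f)))
    (hc4' : ∀ e f t, e ≠ f → e ≠ t → f ≠ t → D e → D f → 0 ≤ A' - B' e - B' f ∧
      (¬ pen t → 0 < A' - B' e - B' f ∧
        (0 < p' + q' e + q' f → N' ≤ (A' - B' e - B' f) * (p' + q' e + q' f))))
    (hRC : ∀ e f t, e ≠ f → e ≠ t → f ≠ t → D e → D f → pen t →
      (0 < p' → 0 < q' e ∨ 0 < q' f) ∧ (p' = 0 → q' e = 0 ∧ q' f = 0))
    (feas : (0 < p ∧ 0 < p') ∨ ∃ e, 0 < q e ∧ 0 < q' e) (hD : ∃ e, D e) :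
    N * N' < (A * A' - ∑ e, B e * B' e) * (p * p' + 2 * ∑ e, q e * q' e + 6 * r * r') := by
  have hB0 : ∀ e, 0 ≤ B e := fun e => by
    by_cases h : D e
    · exact (hB e h).1.le
    · exact (hE e h).1.ge
  have hB0' : ∀ e, 0 ≤ B' e := fun e => by
    by_cases h : D e
    · exact (hB e h).2.le
    · exact (hE e h).2.1.ge
  have hBD : ∀ e, 0 < B e ↔ D e := fun e => by
    refine ⟨fun h => ?_, fun h => (hB e h).1⟩
    by_contra h1
    rw [(hE e h1).1] at h
    exact lt_irrefl _ h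
  have hBD' : ∀ e, 0 < B' e ↔ D e := fun e => by
    refine ⟨fun h => ?_, fun h => (hB e h).2⟩
    by_contra h1
    rw [(hE e h1).2.1] at h
    exact lt_irrefl _ h
  have dv : ∀ {x n : ℝ}, 0 < n → n ≤ x → 1 ≤ x / n := fun hn h => by
    rw [le_div_iff₀ hn]; linarith
  have pos : ∀ {x n : ℝ}, 0 < n → 0 < x / n → 0 < x := fun {x n} hn h => by
    rcases lt_or_ge 0 x with h1 | h1
    · exact h1
    · exact absurd (div_nonpos_of_nonpos_of_nonneg h1 hn.le) (not_le.2 h)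
  have c3 : ∀ e, 0 < p + q e → N ≤ (A - B e) * (p + q e) := fun e h => by
    by_cases h1 : D e
    · exact hc3 e h1 h
    · rw [(hE e h1).1, (hE e h1).2.2.1, sub_zero, add_zero]
      rw [(hE e h1).2.2.1, add_zero] at h
      exact hc1 h
  have c3' : ∀ e, 0 < p' + q' e → N' ≤ (A' - B' e) * (p' + q' e) := fun e h => by
    by_cases h1 : D e
    · exact hc3' e h1 h
    · rw [(hE e h1).2.1, (hE e h1).2.2.2, sub_zero, add_zero]
      rw [(hE e h1).2.2.2, add_zero] at h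
      exact hc1' h
  have c4 : ∀ e f, e ≠ f → 0 < p + q e + q f → N ≤ (A - B e - B f) * (p + q e + q f) := by
    intro e f h h0
    by_cases h1 : D e
    · by_cases h2 : D f
      · exact (hc4 e f h h1 h2).2 h0
      · rw [(hE f h2).1, (hE f h2).2.2.1, sub_zero, add_zero]
        rw [(hE f h2).2.2.1, add_zero] at h0
        exact c3 e h0
    · rw [(hE e h1).1, (hE e h1).2.2.1, sub_zero, add_zero]
      rw [(hE e h1).2.2.1, add_zero] at h0
      exact c3 f h0
  have c4' : ∀ e f t, e ≠ f → e ≠ t → f ≠ t → ¬ (pen t ∧ D e ∧ D f) → 0 < p' + q' e + q' f →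
      N' ≤ (A' - B' e - B' f) * (p' + q' e + q' f) := by
    intro e f t h h3 h4 h5 h0
    by_cases h1 : D e
    · by_cases h2 : D f
      · exact ((hc4' e f t h h3 h4 h1 h2).2 fun h6 => h5 ⟨h6, h1, h2⟩).2 h0
      · rw [(hE f h2).2.1, (hE f h2).2.2.2, sub_zero, add_zero]
        rw [(hE f h2).2.2.2, add_zero] at h0
        exact c3' e h0
    · rw [(hE e h1).2.1, (hE e h1).2.2.2, sub_zero, add_zero]
      rw [(hE e h1).2.2.2, add_zero] at h0
      exact c3' f h0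
  have hs : Sd A B (p / N) (fun e => q e / N) (fun _ => False) :=
    { hp := div_nonneg hp hN.le
      hq := fun e => div_nonneg (hq e) hN.le
      hB := hB0
      hA1 := fun e => sub_pos.1 (hAB e)
      hA2 := fun e f h => by
        by_cases h1 : D e
        · by_cases h2 : D f
          · linarith [(hc4 e f h h1 h2).1]
          · rw [(hE f h2).1]; linarith [hAB e]
        · rw [(hE e h1).1]; linarith [hAB f]
      hA2' := fun e f _ h _ _ _ => by
        by_cases h1 : D e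
        · by_cases h2 : D f
          · linarith [(hc4 e f h h1 h2).1]
          · rw [(hE f h2).1]; linarith [hAB e]
        · rw [(hE e h1).1]; linarith [hAB f]
      c1 := fun h => by
        have := dv hN (hc1 (pos hN h))
        rwa [mul_div_assoc] at this
      c2 := fun e h => by
        have := dv hN (hc2 e (pos hN h))
        rwa [mul_div_assoc] at this
      c3 := fun e h => by
        rw [← add_div] at h ⊢
        have := dv hN (c3 e (pos hN h))
        rwa [mul_div_assoc] at this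
      c4 := fun e f _ h0 _ _ _ h => by
        rw [← add_div, ← add_div] at h ⊢
        have := dv hN (c4 e f h0 (pos hN h))
        rwa [mul_div_assoc] at this
      rc := fun _ _ _ _ _ _ h => h.elim }
  have hs' : Sd A' B' (p' / N') (fun e => q' e / N')
      (fun g => pen g ∧ ∀ e, e ≠ g → D e) :=
    { hp := div_nonneg hp' hN'.le
      hq := fun e => div_nonneg (hq' e) hN'.le
      hB := hB0'
      hA1 := fun e => sub_pos.1 (hAB' e)
      hA2 := fun e f h => by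
        by_cases h1 : D e
        · by_cases h2 : D f
          · obtain ⟨t, h3, h4⟩ := third e f h
            linarith [(hc4' e f t h h3 h4 h1 h2).1]
          · rw [(hE f h2).2.1]; linarith [hAB' e]
        · rw [(hE e h1).2.1]; linarith [hAB' f]
      hA2' := fun e f t h h3 h4 h5 => by
        by_cases h1 : D e
        · by_cases h2 : D f
          · have h6 : ¬ pen t := fun h7 => h5 ⟨h7, fun g hg => by
              rcases mem3 g e f t h h3 h4 with rfl | rfl | rfl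
              · exact h1
              · exact h2
              · exact absurd rfl hg⟩
            linarith [((hc4' e f t h h3 h4 h1 h2).2 h6).1]
          · rw [(hE f h2).2.1]; linarith [hAB' e]
        · rw [(hE e h1).2.1]; linarith [hAB' f]
      c1 := fun h => by
        have := dv hN' (hc1' (pos hN' h))
        rwa [mul_div_assoc] at this
      c2 := fun e h => by
        have := dv hN' (hc2' e (pos hN' h))
        rwa [mul_div_assoc] at this
      c3 := fun e h => by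
        rw [← add_div] at h ⊢
        have := dv hN' (c3' e (pos hN' h))
        rwa [mul_div_assoc] at this
      c4 := fun e f t h0 h3 h4 h5 h => by
        rw [← add_div, ← add_div] at h ⊢
        have := dv hN' (c4' e f t h0 h3 h4 (fun h6 => h5 ⟨h6.1, fun g hg => by
          rcases mem3 g e f t h0 h3 h4 with rfl | rfl | rfl
          · exact h6.2.1
          · exact h6.2.2
          · exact absurd rfl hg⟩) (pos hN' h))
        rwa [mul_div_assoc] at this
      rc := fun e f t h h3 h4 h5 h6 => by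
        have := (hRC e f t h h3 h4 (h5.2 e h3) (h5.2 f h4) h5.1).1 (pos hN' h6)
        exact this.imp (fun h => div_pos h hN') (fun h => div_pos h hN') }
  have key := num3 hs hs' (fun e => (hBD e).trans (hBD' e).symm)
    (hD.imp fun e he => (hBD e).2 he) (fun _ h => h)
    (feas.imp (fun h => ⟨div_pos h.1 hN, div_pos h.2 hN'⟩)
      fun ⟨e, h⟩ => ⟨e, div_pos h.1 hN, div_pos h.2 hN'⟩)
  have hid : p / N * (p' / N') + 2 * ∑ e, q e / N * (q' e / N') =
      (p * p' + 2 * ∑ e, q e * q' e) / (N * N') := by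
    rw [Fin.sum_univ_three, Fin.sum_univ_three]
    field_simp
  rw [hid, ← mul_div_assoc, lt_div_iff₀ (mul_pos hN hN'), one_mul] at key
  have hQ : 0 ≤ p * p' + 2 * ∑ e, q e * q' e :=
    add_nonneg (mul_nonneg hp hp') (mul_nonneg zero_le_two
      (Finset.sum_nonneg fun e _ => mul_nonneg (hq e) (hq' e)))
  have hK : 0 ≤ A * A' - ∑ e, B e * B' e := by
    by_contra h
    have := mul_nonpos_of_nonpos_of_nonneg (not_le.1 h).le hQ
    linarith [mul_pos hN hN']
  have h6 : 0 ≤ (A * A' - ∑ e, B e * B' e) * (6 * r * r') :=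
    mul_nonneg hK (by positivity)
  rw [mul_add]
  linarith

end Pool.Agent.Xu.H35
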