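import Pool.Agent.Lib.MP_144d21_co.X2.H35.Num3

/-!
# MP_144d21_co, IQ, the 3-cut step: only the constant pattern is common (helper35)

`T` is independent, `C = β(H / T)`, `D e = β(H / e)`, `b = β(H)`, `r` = number of 4-colourings of
`H` with `T` constant divided by `3 * 2 ^ |H|`; `A = b + ∑ D + 2 C`, `B e = C + D e`.
-/

set_option autoImplicit false

namespace Pool.Agent.Xu.H35

open Finset

/-- two connected interiors; for every pair one side has no colouring in which exactly this pair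
is equal, and so `D e * r ≥ 1 / 2` there -/
theorem num3c {A A' b b' C C' r r' : ℝ} {B B' D D' : Fin 3 → ℝ} (hb : 0 ≤ b) (hb' : 0 ≤ b')
    (hD0 : ∀ e, 0 ≤ D e) (hD0' : ∀ e, 0 ≤ D' e) (hr : 0 < r) (hr' : 0 < r')
    (hA : A = b + ∑ e, D e + 2 * C) (hA' : A' = b' + ∑ e, D' e + 2 * C')
    (hB : ∀ e, B e = C + D e) (hB' : ∀ e, B' e = C' + D' e)
    (hC : 1 / 4 ≤ C * r) (hC' : 1 / 4 ≤ C' * r')
    (hD : ∀ e, 1 / 2 ≤ D e * r ∨ 1 / 2 ≤ D' e * r') :
    1 < (A * A' - ∑ e, B e * B' e) * (6 * (r * r')) := by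
  have hC0 : 0 < C := by
    by_contra h
    have := mul_nonpos_of_nonpos_of_nonneg (not_lt.1 h) hr.le
    linarith
  have hC0' : 0 < C' := by
    by_contra h
    have := mul_nonpos_of_nonpos_of_nonneg (not_lt.1 h) hr'.le
    linarith
  have h1 : C * C' + C * ∑ e, D' e + C' * ∑ e, D e ≤ A * A' - ∑ e, B e * B' e := by
    rw [hA, hA']
    simp only [Fin.sum_univ_three, hB, hB']
    have n0 := hD0 0
    have n1 := hD0 1
    have n2 := hD0 2
    have n0' := hD0' 0
    have n1' := hD0' 1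
    have n2' := hD0' 2
    have a1 := mul_nonneg n0 n1'
    have a2 := mul_nonneg n0 n2'
    have a3 := mul_nonneg n1 n0'
    have a4 := mul_nonneg n1 n2'
    have a5 := mul_nonneg n2 n0'
    have a6 := mul_nonneg n2 n1'
    have a7 := mul_nonneg hb hb'
    have a8 := mul_nonneg hb hC0'.le
    have a9 := mul_nonneg hb' hC0.le
    have b0 := mul_nonneg hb n0'
    have b1 := mul_nonneg hb n1'
    have b2 := mul_nonneg hb n2'
    have b3 := mul_nonneg hb' n0
    have b4 := mul_nonneg hb' n1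
    have b5 := mul_nonneg hb' n2
    nlinarith
  have hs : ∀ e, 1 / 2 ≤ D e * r + D' e * r' := by
    intro e
    have m1 := mul_nonneg (hD0 e) hr.le
    have m2 := mul_nonneg (hD0' e) hr'.le
    rcases hD e with h | h <;> linarith
  have h2 : 7 / 16 ≤ (C * C' + C * ∑ e, D' e + C' * ∑ e, D e) * (r * r') := by
    have e1 : (C * C' + C * ∑ e, D' e + C' * ∑ e, D e) * (r * r') =
        (C * r) * (C' * r') + (C * r) * (∑ e, D' e * r') + (C' * r') * (∑ e, D e * r) := by
      rw [← Finset.sum_mul, ← Finset.sum_mul]; ring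
    rw [e1, Fin.sum_univ_three, Fin.sum_univ_three]
    have s0 := hs 0
    have s1 := hs 1
    have s2 := hs 2
    have m0 := mul_nonneg (hD0 0) hr.le
    have m1 := mul_nonneg (hD0 1) hr.le
    have m2 := mul_nonneg (hD0 2) hr.le
    have m0' := mul_nonneg (hD0' 0) hr'.le
    have m1' := mul_nonneg (hD0' 1) hr'.le
    have m2' := mul_nonneg (hD0' 2) hr'.le
    nlinarith [mul_nonneg (sub_nonneg.2 hC) (by positivity : (0 : ℝ) ≤ C' * r'),
      mul_nonneg (sub_nonneg.2 hC) (add_nonneg (add_nonneg m0' m1') m2'),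
      mul_nonneg (sub_nonneg.2 hC') (add_nonneg (add_nonneg m0 m1) m2)]
  have hrr := mul_pos hr hr'
  have h3 := mul_le_mul_of_nonneg_right h1 hrr.le
  nlinarith

/-- three or more components: side 1 is one component, side 2 is the union of the others -/
theorem num3k {A A' b C r r' : ℝ} {B B' D : Fin 3 → ℝ} (hb : 0 ≤ b)
    (hD0 : ∀ e, 0 ≤ D e) (hr : 0 < r) (hr' : 0 < r')
    (hA : A = b + ∑ e, D e + 2 * C) (hB : ∀ e, B e = C + D e)
    (hC : 1 / 4 ≤ C * r) (hA' : 3 / 2 ≤ A' * r') (hs : ∑ e, B' e ≤ A') (hs1 : ∀ e, B' e ≤ A') :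
    1 < (A * A' - ∑ e, B e * B' e) * (6 * (r * r')) := by
  have hC0 : 0 < C := by
    by_contra h
    have := mul_nonpos_of_nonpos_of_nonneg (not_lt.1 h) hr.le
    linarith
  have hA0 : 0 < A' := by
    by_contra h
    have := mul_nonpos_of_nonpos_of_nonneg (not_lt.1 h) hr'.le
    linarith
  have h1 : C * A' ≤ A * A' - ∑ e, B e * B' e := by
    rw [hA]
    simp only [Fin.sum_univ_three, hB] at hs ⊢
    have n0 := mul_nonneg (hD0 0) (sub_nonneg.2 (hs1 0))
    have n1 := mul_nonneg (hD0 1) (sub_nonneg.2 (hs1 1))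
    have n2 := mul_nonneg (hD0 2) (sub_nonneg.2 (hs1 2))
    have n3 := mul_nonneg hC0.le (sub_nonneg.2 hs)
    have n4 := mul_nonneg hb hA0.le
    nlinarith
  have h2 : 3 / 8 ≤ C * A' * (r * r') := by
    have : C * A' * (r * r') = (C * r) * (A' * r') := by ring
    rw [this]
    nlinarith
  have hrr := mul_pos hr hr'
  have h3 := mul_le_mul_of_nonneg_right h1 hrr.le
  nlinarith

/-- **case III with two sides** (helper44's form): the only common pattern is the constant one -/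
theorem num3b (A A' b b' C C' r r' : ℝ) (B B' D D' q q' : Fin 3 → ℝ)
    (hA : A = b + ∑ e, D e + 2 * C) (hA' : A' = b' + ∑ e, D' e + 2 * C')
    (hB : ∀ e, B e = C + D e) (hB' : ∀ e, B' e = C' + D' e)
    (hb : 0 ≤ b) (hb' : 0 ≤ b') (hC0 : 0 ≤ C) (hC0' : 0 ≤ C') (hD0 : ∀ e, 0 ≤ D e)
    (hD0' : ∀ e, 0 ≤ D' e) (hr : 0 < r) (hr' : 0 < r') (hC : 1 ≤ 4 * C * r)
    (hD : ∀ e, q e = 0 → 1 ≤ 2 * D e * r) (hD' : ∀ e, q' e = 0 → 1 ≤ 2 * D' e * r')
    (hq : ∀ e, q e = 0 ∨ q' e = 0) (hc : 1 ≤ 4 * C' * r' ∨ ∃ e, q' e = 0) :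
    1 < (A * A' - ∑ e, B e * B' e) * (6 * r * r') := by
  have h6 : (6 * r * r' : ℝ) = 6 * (r * r') := by ring
  rw [h6]
  rcases hc with hc | ⟨i, hi⟩
  · refine num3c hb hb' hD0 hD0' hr hr' hA hA' hB hB' (by linarith) (by linarith) fun e => ?_
    rcases hq e with h | h
    · left; linarith [hD e h]
    · right; linarith [hD' e h]
  obtain ⟨j, hij⟩ : ∃ j : Fin 3, i ≠ j := by
    rcases eq_or_ne i 0 with h | h
    · exact ⟨1, by rw [h]; decide⟩
    · exact ⟨0, h⟩
  have hr2 := mul_pos hr hr'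
  have hK : A * A' - ∑ e, B e * B' e = b * A' + b' * (∑ e, D e + 2 * C) + C * C' + C' * ∑ e, D e +
      C * ∑ e, D' e + (D 0 * D' 1 + D 0 * D' 2 + D 1 * D' 0 + D 1 * D' 2 + D 2 * D' 0 +
        D 2 * D' 1) := by
    rw [hA, hA']
    simp only [Fin.sum_univ_three, hB, hB']
    ring
  have n0 := mul_nonneg (hD0 0) (hD0' 1)
  have n1 := mul_nonneg (hD0 0) (hD0' 2)
  have n2 := mul_nonneg (hD0 1) (hD0' 0)
  have n3 := mul_nonneg (hD0 1) (hD0' 2)
  have n4 := mul_nonneg (hD0 2) (hD0' 0)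
  have n5 := mul_nonneg (hD0 2) (hD0' 1)
  have s0 : 0 ≤ ∑ e, D e := Finset.sum_nonneg fun e _ => hD0 e
  have s0' : 0 ≤ ∑ e, D' e := Finset.sum_nonneg fun e _ => hD0' e
  have hA0' : 0 ≤ A' := by rw [hA']; linarith
  have m1 := mul_nonneg hb hA0'
  have m2 := mul_nonneg hb' (by linarith : 0 ≤ ∑ e, D e + 2 * C)
  have m3 := mul_nonneg hC0 hC0'
  have m4 := mul_nonneg hC0' s0
  have m5 := mul_nonneg hC0 s0'
  have hi' := hD' i hi
  -- in both cases `1 / 4 ≤ K r r'`
  suffices h : 1 ≤ 4 * ((A * A' - ∑ e, B e * B' e) * (r * r')) by linarith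
  rcases hq j with h | h
  · have hj := hD j h
    have h1 : D j * D' i ≤ A * A' - ∑ e, B e * B' e := by
      rw [hK]
      fin_cases i <;> fin_cases j <;>
        simp only [Fin.zero_eta, Fin.mk_one, Fin.reduceFinMk] at hij ⊢ <;>
        first
        | exact absurd rfl hij
        | linarith
    have h2 : 1 ≤ (2 * D j * r) * (2 * D' i * r') := by nlinarith
    have h3 := mul_le_mul_of_nonneg_right h1 hr2.le
    nlinarith
  · have hj := hD' j h
    have h0 : D' i + D' j ≤ ∑ e, D' e := by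
      rw [Fin.sum_univ_three]
      have := hD0' 0
      have := hD0' 1
      have := hD0' 2
      fin_cases i <;> fin_cases j <;>
        simp only [Fin.zero_eta, Fin.mk_one, Fin.reduceFinMk] at hij ⊢ <;>
        first
        | exact absurd rfl hij
        | linarith
    have h1 : C * (D' i + D' j) ≤ A * A' - ∑ e, B e * B' e := by
      rw [hK]
      have := mul_le_mul_of_nonneg_left h0 hC0
      linarith
    have h2 : 1 ≤ (4 * C * r) * ((D' i + D' j) * r') := by
      have : 1 ≤ (D' i + D' j) * r' := by linarith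
      nlinarith
    have h3 := mul_le_mul_of_nonneg_right h1 hr2.le
    nlinarith

end Pool.Agent.Xu.H35
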